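import Pool.Agent.Helper622.Six.Main
import Pool.Agent.Helper622.Six.Fin23
import Pool.Agent.Helper622.Six.CG3
import Pool.Agent.Helper622.Six.Inf16
import Pool.Agent.Helper622.Six.BC
import Pool.Agent.Helper622.Six.Dual

set_option autoImplicit false

namespace Pool.Agent.Results.MP_c2d01e_co.AThreeFamilies

open Pool.Agent.Helper622.Six

/-- Existence, finiteness and infiniteness results for the groups of the universal locally toroidal
regular 6-polytopes of the families (A), (B), (C). -/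
theorem result :
    (∀ k s : ℕ, (k = 1 ∨ k = 2) → 3 ≤ s →
      (∀ i : Fin 6, (PresentedGroup.of i : PresentedGroup (rels k s)) ≠ 1) ∧
      ∀ I J : Set (Fin 6),
        Subgroup.closure ((PresentedGroup.of : Fin 6 → PresentedGroup (rels k s)) '' I) ⊓
          Subgroup.closure ((PresentedGroup.of : Fin 6 → PresentedGroup (rels k s)) '' J) =
        Subgroup.closure ((PresentedGroup.of : Fin 6 → PresentedGroup (rels k s)) '' (I ∩ J))) ∧
    Finite (PresentedGroup (rels 2 3)) ∧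
    (∀ k s : ℕ, (k = 1 ∨ k = 2) → 3 ≤ s →
      ¬ (k = 2 ∧ s = 3) → ¬ (k = 1 ∧ s = 3) → ¬ (k = 1 ∧ s = 4) →
      Infinite (PresentedGroup (rels k s))) ∧
    (∀ k s k' t : ℕ, (k = 1 ∨ k = 2) → (k' = 1 ∨ k' = 2) → 2 ≤ s → 2 ≤ t →
      ((Even s ∧ 4 ≤ s ∧ 3 ≤ t ∧ (k' = 1 → Even t ∧ 6 ≤ t)) ∨
        (Even t ∧ 4 ≤ t ∧ 3 ≤ s ∧ (k = 1 → Even s ∧ 6 ≤ s)) ∨
        (∃ d, 5 ≤ d ∧ d ∣ s ∧ d ∣ k' * t) ∨ (∃ d, 4 ≤ d ∧ 2 * d ∣ k * s ∧ d ∣ t)) →
      Infinite (PresentedGroup (relsB k s k' t))) ∧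
    (∀ k t l u : ℕ, (k = 1 ∨ k = 2) → (l = 1 ∨ l = 2 ∨ l = 4) → 2 ≤ t → 2 ≤ u →
      (((k = 1 → Even t ∧ 4 ≤ t) ∧ 3 ≤ u ∧ (l ≠ 4 → Even u ∧ 6 ≤ u)) ∨
        (∃ d, 5 ≤ d ∧ d ∣ k * t ∧ d ∣ (if l = 4 then 2 * u else u)) ∨
        (∃ d, 4 ≤ d ∧ d ∣ t ∧ (if l = 1 then 2 * d else d) ∣ u)) →
      Infinite (PresentedGroup (relsC k t l u))) := by
  refine ⟨fun k s _ hs => ⟨of_ne_one k s hs, intersection_property k s hs⟩, finite_23,
    fun k s hk hs h23 h13 h14 => ?_, fun k s k' t hk hk' hs ht h => ?_,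
    fun k t l u hk hl ht hu h => ?_⟩
  · by_cases h16 : k = 1 ∧ s = 6
    · obtain ⟨rfl, rfl⟩ := h16
      exact infinite_1_6
    · exact infinite_main k s hk (by omega) (by omega) h13 h14 h16 (by omega) h23
  · rcases h with h | h | h | h
    · exact infinite_B_all k s k' t hk hk' hs ht (Or.inl h)
    · exact infinite_B_all k s k' t hk hk' hs ht (Or.inr h)
    · exact infinite_B k s k' t hk hk' (Or.inl h)
    · exact infinite_B k s k' t hk hk' (Or.inr h)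
  · rcases h with ⟨h1, h2, h3⟩ | h | h
    · exact infinite_C_all k t l u hk hl ht h1 h2 h3
    · exact infinite_C k t l u hk hl (Or.inl h)
    · exact infinite_C k t l u hk hl (Or.inr h)

end Pool.Agent.Results.MP_c2d01e_co.AThreeFamilies
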