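import Pool.Agent.Helper622.Six.Main
import Pool.Agent.Helper622.Six.Fin23
import Pool.Agent.Helper622.Six.CG3
import Pool.Agent.Helper622.Six.Inf16
import Pool.Agent.Helper622.Six.BC

set_option autoImplicit false

namespace Pool.Agent.Results.MP_c2d01e_co.BCFamilies

open Pool.Agent.Helper622.Six

/-- Family (A): for all `s ≥ 3` the group is a string C-group; it is finite for (3,3,0,0) and
infinite for all other `s ≥ 3` except (3,0,0,0) and possibly (4,0,0,0).
Families (B), (C): the groups are infinite whenever the parameters have a suitable common divisor. -/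
theorem result :
    (∀ k s : ℕ, (k = 1 ∨ k = 2) → 3 ≤ s →
      (∀ i : Fin 6, (PresentedGroup.of i : PresentedGroup (rels k s)) ≠ 1) ∧
      ∀ I J : Set (Fin 6),
        Subgroup.closure ((PresentedGroup.of : Fin 6 → PresentedGroup (rels k s)) '' I) ⊓
          Subgroup.closure ((PresentedGroup.of : Fin 6 → PresentedGroup (rels k s)) '' J) =
        Subgroup.closure ((PresentedGroup.of : Fin 6 → PresentedGroup (rels k s)) '' (I ∩ J))) ∧
    Finite (PresentedGroup (rels 2 3)) ∧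
    (∀ k s : ℕ, (k = 1 ∨ k = 2) → 3 ≤ s →
      ¬ (k = 2 ∧ s = 3) → ¬ (k = 1 ∧ s = 3) → ¬ (k = 1 ∧ s = 4) →
      Infinite (PresentedGroup (rels k s))) ∧
    (∀ k s k' t : ℕ, (k = 1 ∨ k = 2) → (k' = 1 ∨ k' = 2) →
      ((∃ d, 5 ≤ d ∧ d ∣ s ∧ d ∣ k' * t) ∨ (∃ d, 4 ≤ d ∧ 2 * d ∣ k * s ∧ d ∣ t)) →
      Infinite (PresentedGroup (relsB k s k' t))) ∧
    (∀ k t l u : ℕ, (k = 1 ∨ k = 2) → (l = 1 ∨ l = 2 ∨ l = 4) →
      ((∃ d, 5 ≤ d ∧ d ∣ k * t ∧ d ∣ (if l = 4 then 2 * u else u)) ∨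
        (∃ d, 4 ≤ d ∧ d ∣ t ∧ (if l = 1 then 2 * d else d) ∣ u)) →
      Infinite (PresentedGroup (relsC k t l u))) := by
  refine ⟨fun k s _ hs => ⟨of_ne_one k s hs, intersection_property k s hs⟩, finite_23,
    fun k s hk hs h23 h13 h14 => ?_, fun k s k' t hk hk' h => infinite_B k s k' t hk hk' h,
    fun k t l u hk hl h => infinite_C k t l u hk hl h⟩
  by_cases h16 : k = 1 ∧ s = 6
  · obtain ⟨rfl, rfl⟩ := h16
    exact infinite_1_6
  · exact infinite_main k s hk (by omega) (by omega) h13 h14 h16 (by omega) h23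

end Pool.Agent.Results.MP_c2d01e_co.BCFamilies
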