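import Pool.Agent.Helper622.Six.Main
import Pool.Agent.Helper622.Six.Fin23
import Pool.Agent.Helper622.Six.CG3
import Pool.Agent.Helper622.Six.Inf16

set_option autoImplicit false

namespace Pool.Agent.Results.MP_c2d01e_co.FamilyAExistence

open Pool.Agent.Helper622.Six

/-- `rels k s` are the defining relators of the group `Γ` of family (A) with `s = (s^k, 0^{4-k})`.
For all `k ∈ {1, 2}` and `s ≥ 3`, the group `Γ` is a string C-group (so the universal polytope exists).
It is finite for `(k, s) = (2, 3)` and infinite for all other `k ∈ {1, 2}`, `s ≥ 3`, except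
`(k, s) = (1, 3)` (known to be finite) and possibly `(1, 4)`. -/
theorem result :
    (∀ k s : ℕ, (k = 1 ∨ k = 2) → 3 ≤ s →
      (∀ i : Fin 6, (PresentedGroup.of i : PresentedGroup (rels k s)) ≠ 1) ∧
      ∀ I J : Set (Fin 6),
        Subgroup.closure ((PresentedGroup.of : Fin 6 → PresentedGroup (rels k s)) '' I) ⊓
          Subgroup.closure ((PresentedGroup.of : Fin 6 → PresentedGroup (rels k s)) '' J) =
        Subgroup.closure ((PresentedGroup.of : Fin 6 → PresentedGroup (rels k s)) '' (I ∩ J))) ∧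
    Finite (PresentedGroup (rels 2 3)) ∧
    ∀ k s : ℕ, (k = 1 ∨ k = 2) → 3 ≤ s →
      ¬ (k = 2 ∧ s = 3) → ¬ (k = 1 ∧ s = 3) → ¬ (k = 1 ∧ s = 4) →
      Infinite (PresentedGroup (rels k s)) := by
  refine ⟨fun k s _ hs => ⟨of_ne_one k s hs, intersection_property k s hs⟩, finite_23,
    fun k s hk hs h23 h13 h14 => ?_⟩
  by_cases h16 : k = 1 ∧ s = 6
  · obtain ⟨rfl, rfl⟩ := h16
    exact infinite_1_6
  · exact infinite_main k s hk (by omega) (by omega) h13 h14 h16 (by omega) h23

end Pool.Agent.Results.MP_c2d01e_co.FamilyAExistence
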