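import Pool.Agent.Helper622.Six.Main
import Pool.Agent.Helper622.Six.Fin23

set_option autoImplicit false

namespace Pool.Agent.Results.MP_c2d01e_co.FamilyAFiniteness

open Pool.Agent.Helper622.Six

/-- `rels k s` are the defining relators of the group `Γ` of family (A) with `s = (s^k, 0^{4-k})`.
The group is finite for `(k, s) = (2, 3)`, and it is infinite for all `k ∈ {1, 2}`, `s ≥ 2` except
possibly `(1,2), (1,3), (1,4), (1,6), (2,2), (2,3)`. -/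
theorem result :
    Finite (PresentedGroup (rels 2 3)) ∧
    ∀ k s : ℕ, (k = 1 ∨ k = 2) → 2 ≤ s →
      ¬ (k = 1 ∧ (s = 2 ∨ s = 3 ∨ s = 4 ∨ s = 6)) → ¬ (k = 2 ∧ (s = 2 ∨ s = 3)) →
      Infinite (PresentedGroup (rels k s)) := by
  refine ⟨finite_23, fun k s hk hs h1 h2 => infinite_main k s hk hs ?_ ?_ ?_ ?_ ?_ ?_⟩
  · exact fun h => h1 ⟨h.1, Or.inl h.2⟩
  · exact fun h => h1 ⟨h.1, Or.inr (Or.inl h.2)⟩
  · exact fun h => h1 ⟨h.1, Or.inr (Or.inr (Or.inl h.2))⟩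
  · exact fun h => h1 ⟨h.1, Or.inr (Or.inr (Or.inr h.2))⟩
  · exact fun h => h2 ⟨h.1, Or.inl h.2⟩
  · exact fun h => h2 ⟨h.1, Or.inr h.2⟩

end Pool.Agent.Results.MP_c2d01e_co.FamilyAFiniteness
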